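import Mathlib
import Pool.Agent.Y989.SD.Stm

/-!
Project SD (helper989): windows of the lattice domain, in the coordinates of one frame.
-/

set_option autoImplicit false

namespace Pool.Agent.Y989.SD.GD

open H974 H973 Finset

/-- A set of the plane near the origin, in the frame of the boundary point: it is close to a
half-plane and has the cone property. -/
structure Fm (P : ℝ → ℝ → Prop) (t e C α ρ0 ρ : ℝ) : Prop where
  te : |t| ≤ e
  one : t ^ 2 + e ^ 2 = 1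
  C0 : 0 < C
  al : 0 < α
  al1 : α ≤ 1
  r0 : 0 < ρ
  r1 : ρ ≤ 1
  big : 100 * ρ ≤ ρ0
  sm : ∀ x, 0 ≤ x → x ≤ 100 * ρ → C * x ^ (1 + α) ≤ x / 10
  inn : ∀ a b, |a| + |b| ≤ ρ0 → P a b → -(C * (|a| + |b|) ^ (1 + α)) ≤ t * a + e * b
  out : ∀ a b, |a| + |b| ≤ ρ0 → C * (|a| + |b|) ^ (1 + α) ≤ t * a + e * b → P a b
  cone : ∀ a b a' b', P a b → |a| + |b| ≤ ρ0 → |a'| + |b'| ≤ ρ0 →
    1 / 5 * (|a'| + |b'|) ≤ t * a' + e * b' → P (a + a') (b + b')

variable {P : ℝ → ℝ → Prop} {t e C α ρ0 ρ : ℝ}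

theorem e_big (te : |t| ≤ e) (one : t ^ 2 + e ^ 2 = 1) : 7 / 10 ≤ e := by
  have h0 : 0 ≤ e := (abs_nonneg t).trans te
  have h1 : t ^ 2 ≤ e ^ 2 := by
    rw [← sq_abs t]
    exact pow_le_pow_left₀ (abs_nonneg t) te 2
  nlinarith

theorem e_le (one : t ^ 2 + e ^ 2 = 1) : e ≤ 1 := by nlinarith [sq_nonneg t, sq_nonneg (e - 1)]

theorem tA (te : |t| ≤ e) (A : ℝ) : -(e * |A|) ≤ t * A ∧ t * A ≤ e * |A| := by
  have h1 : |t * A| ≤ e * |A| := by
    rw [abs_mul]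
    exact mul_le_mul_of_nonneg_right te (abs_nonneg A)
  exact abs_le.1 h1

theorem up1 (H : Fm P t e C α ρ0 ρ) {A b : ℝ} (hb : 3 / 2 * |A| ≤ b)
    (hM : |A| + |b| ≤ 100 * ρ) : P A b := by
  have he := e_big H.te H.one
  have hA := abs_nonneg A
  have hb0 : 0 ≤ b := by linarith
  refine H.out A b (hM.trans H.big) ?_
  refine (H.sm _ (by positivity) hM).trans ?_
  rw [abs_of_nonneg hb0]
  have h1 := (tA H.te A).1
  have h2 : 0 ≤ e * (b - |A| - b / 3) := mul_nonneg (by linarith) (by linarith)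
  have h3 : 0 ≤ (e - 7 / 10) * b := mul_nonneg (by linarith) hb0
  nlinarith

theorem dn1 (H : Fm P t e C α ρ0 ρ) {A b : ℝ} (hb : b < -(3 / 2 * |A|))
    (hM : |A| + |b| ≤ 100 * ρ) : ¬ P A b := by
  intro hP
  have he := e_big H.te H.one
  have hA := abs_nonneg A
  have hb0 : b < 0 := by linarith
  have h4 := H.inn A b (hM.trans H.big) hP
  have h5 := H.sm _ (by positivity) hM
  rw [abs_of_neg hb0] at h4 h5
  have h1 := (tA H.te A).2
  have h2 : 0 ≤ e * (b / 3 - (b + |A|)) := mul_nonneg (by linarith) (by linarith)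
  have h3 : 0 ≤ (e - 7 / 10) * (-b) := mul_nonneg (by linarith) (by linarith)
  nlinarith

/-- one column -/
theorem col (H : Fm P t e C α ρ0 ρ) {ε : ℝ} (hε : 0 < ε) (hερ : ε ≤ ρ / 100) (p2 A : ℝ)
    (hA : |A| ≤ 2 * ρ) : ∃ n0 : ℤ, -(3 / 2 * |A|) ≤ ε * n0 - p2 ∧ ε * n0 - p2 < 3 / 2 * |A| + ε ∧
      P A (ε * n0 - p2) ∧ ∀ n : ℤ, |ε * n - p2| ≤ 40 * ρ → (P A (ε * n - p2) ↔ n0 ≤ n) := by
  have hρ := H.r0
  have hA0 := abs_nonneg A
  -- a good integer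
  set n1 : ℤ := ⌈(p2 + 3 / 2 * |A|) / ε⌉ with hn1
  have b1 : 3 / 2 * |A| ≤ ε * n1 - p2 := by
    have := Int.le_ceil ((p2 + 3 / 2 * |A|) / ε)
    rw [← hn1, div_le_iff₀ hε] at this
    linarith
  have b2 : ε * n1 - p2 < 3 / 2 * |A| + ε := by
    have := Int.ceil_lt_add_one ((p2 + 3 / 2 * |A|) / ε)
    rw [← hn1, ← sub_lt_iff_lt_add, lt_div_iff₀ hε] at this
    linarith
  have g1 : P A (ε * n1 - p2) := by
    refine up1 H b1 ?_
    rw [abs_of_nonneg (show 0 ≤ ε * (n1 : ℝ) - p2 by linarith)]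
    linarith
  obtain ⟨n0, ⟨c1, c2⟩, c3⟩ := Int.exists_least_of_bdd
    (P := fun n : ℤ => -(3 / 2 * |A|) ≤ ε * n - p2 ∧ P A (ε * n - p2))
    ⟨⌊(p2 - 3 / 2 * |A|) / ε⌋, fun z hz => by
      have h1 : (p2 - 3 / 2 * |A|) / ε ≤ z := by
        rw [div_le_iff₀ hε]; linarith [hz.1]
      exact_mod_cast (Int.floor_le _).trans h1⟩ ⟨n1, by linarith, g1⟩
  have c4 : n0 ≤ n1 := c3 n1 ⟨by linarith, g1⟩
  have c5 : ε * (n0 : ℝ) ≤ ε * n1 := by
    have : (n0 : ℝ) ≤ n1 := by exact_mod_cast c4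
    exact mul_le_mul_of_nonneg_left this hε.le
  have c6 : ε * n0 - p2 < 3 / 2 * |A| + ε := by linarith
  refine ⟨n0, c1, c6, c2, fun n hn => ⟨fun hP => ?_, fun hle => ?_⟩⟩
  · by_cases h1 : -(3 / 2 * |A|) ≤ ε * n - p2
    · exact c3 n ⟨h1, hP⟩
    · exact absurd hP (dn1 H (not_le.1 h1) (by linarith))
  · have h1 : 0 ≤ ε * ((n : ℝ) - n0) := by
      have : (n0 : ℝ) ≤ n := by exact_mod_cast hle
      exact mul_nonneg hε.le (by linarith)
    have h2 : |ε * n0 - p2| ≤ 4 * ρ := by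
      rw [abs_le]; constructor <;> linarith
    have h3 : ε * ((n : ℝ) - n0) ≤ 50 * ρ := by
      have := (abs_le.1 hn).2
      have h4 := (abs_le.1 h2).1
      nlinarith
    have h4 := H.cone A (ε * n0 - p2) 0 (ε * ((n : ℝ) - n0)) c2
      (by have := H.big; linarith)
      (by rw [abs_zero, abs_of_nonneg h1]; have := H.big; linarith)
      (by
        rw [abs_zero, abs_of_nonneg h1]
        have := e_big H.te H.one
        nlinarith)
    rw [add_zero] at h4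
    convert h4 using 1
    ring

/-- the step to the next column -/
theorem step (H : Fm P t e C α ρ0 ρ) {ε : ℝ} (hε : 0 < ε) (hερ : ε ≤ ρ / 100) {A b δ : ℝ}
    (hδ : |δ| = ε) (hM : |A| + |b| ≤ 10 * ρ) (hP : P A b) : P (A + δ) (b + 3 * ε) := by
  have hρ := H.r0
  have h1 := H.big
  have he := e_big H.te H.one
  refine H.cone A b δ (3 * ε) hP (by linarith) ?_ ?_
  · rw [hδ, abs_of_pos (by linarith)]; linarith
  · rw [hδ, abs_of_pos (by linarith)]
    have h2 := (tA H.te δ).1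
    rw [hδ] at h2
    nlinarith

end Pool.Agent.Y989.SD.GD
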