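import Mathlib
import Pool.Agent.Y83.SD.Frame

/-!
Project SD (helper989): the window of the lattice domain in one frame.
-/

set_option autoImplicit false

namespace Pool.Agent.Y989.SD.GD

open H974 H973 Finset

variable {P : ℝ → ℝ → Prop} {t e C α ρ0 ρ : ℝ}

/-- the power -/
theorem powb (al : 0 < α) (al1 : α ≤ 1) {ε L x : ℝ} (hε : 0 < ε) (hL : 0 < L) (hεL : ε * L ≤ 1)
    (hε1 : ε ≤ 1) (hx : x = 0 ∨ 1 ≤ x) :
    (4 * ε * (x + 1)) ^ (1 + α) ≤ 64 * ε * (1 + x * (x / L) ^ α) := by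
  rcases hx with rfl | hx
  · have h1 : (4 * ε * (0 + 1)) ^ (1 + α) = 4 ^ (1 + α) * ε ^ (1 + α) := by
      rw [zero_add, mul_one, Real.mul_rpow (by norm_num) hε.le]
    have h2 : (4 : ℝ) ^ (1 + α) ≤ 4 ^ (2 : ℝ) :=
      Real.rpow_le_rpow_of_exponent_le (by norm_num) (by linarith)
    have h3 : ε ^ (1 + α) ≤ ε := by
      conv_rhs => rw [← Real.rpow_one ε]
      exact Real.rpow_le_rpow_of_exponent_ge hε hε1 (by linarith)
    have h4 : (4 : ℝ) ^ (2 : ℝ) = 16 := by norm_num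
    rw [h4] at h2
    rw [h1]
    have h5 : (4 : ℝ) ^ (1 + α) * ε ^ (1 + α) ≤ 16 * ε :=
      mul_le_mul h2 h3 (Real.rpow_nonneg hε.le _) (by norm_num)
    simp only [zero_mul, add_zero, mul_one]
    linarith
  · have hx0 : 0 < x := by linarith
    have hex : 0 < ε * x := mul_pos hε hx0
    have h0 : (4 * ε * (x + 1)) ^ (1 + α) ≤ (8 * (ε * x)) ^ (1 + α) := by
      apply Real.rpow_le_rpow (by positivity) _ (by linarith)
      nlinarith
    have h1 : (8 * (ε * x)) ^ (1 + α) = 8 ^ (1 + α) * ((ε * x) * (ε * x) ^ α) := by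
      rw [Real.mul_rpow (by norm_num) hex.le, Real.rpow_add hex, Real.rpow_one]
    have h2 : (8 : ℝ) ^ (1 + α) ≤ 8 ^ (2 : ℝ) :=
      Real.rpow_le_rpow_of_exponent_le (by norm_num) (by linarith)
    have h4 : (8 : ℝ) ^ (2 : ℝ) = 64 := by norm_num
    rw [h4] at h2
    have h5 : (ε * x) ^ α ≤ (x / L) ^ α := by
      apply Real.rpow_le_rpow hex.le _ al.le
      rw [le_div_iff₀ hL]
      nlinarith
    have h6 : 0 ≤ (ε * x) * (ε * x) ^ α := mul_nonneg hex.le (Real.rpow_nonneg hex.le _)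
    calc (4 * ε * (x + 1)) ^ (1 + α) ≤ 8 ^ (1 + α) * ((ε * x) * (ε * x) ^ α) := by
          rw [← h1]; exact h0
      _ ≤ 64 * ((ε * x) * (ε * x) ^ α) := mul_le_mul_of_nonneg_right h2 h6
      _ ≤ 64 * ((ε * x) * (x / L) ^ α) := by
          have := mul_le_mul_of_nonneg_left h5 hex.le
          linarith
      _ ≤ 64 * ε * (1 + x * (x / L) ^ α) := by nlinarith

theorem frame (H : Fm P t e C α ρ0 ρ) {ε : ℝ} (hε : 0 < ε) (hερ : ε ≤ ρ / 100) (p1 p2 : ℝ) :
    ∃ m0 n0 : ℤ, P (ε * m0 - p1) (ε * n0 - p2) ∧ |ε * m0 - p1| ≤ ε / 2 ∧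
      |ε * n0 - p2| ≤ 7 / 4 * ε ∧
      ∃ (h : ℤ → ℤ) (s : ℝ), Lp 3 h ∧ |s| ≤ 2 ∧ Flat h s (128 * C + 7) α ⌊ρ / ε⌋ ∧
        ∀ x y : ℤ, |x| ≤ ⌊ρ / ε⌋ → |y| ≤ 32 * ⌊ρ / ε⌋ →
          (P (ε * ((m0 + x : ℤ) : ℝ) - p1) (ε * ((n0 + y : ℤ) : ℝ) - p2) ↔ h x ≤ y) := by
  have hρ := H.r0
  have hρ1 := H.r1
  have hbig := H.big
  have he := e_big H.te H.one
  have he1 := e_le H.one
  have hC := H.C0
  have ht1 : |t| ≤ 1 := H.te.trans he1
  set L : ℤ := ⌊ρ / ε⌋ with hLd
  have hL0 : ε * L ≤ ρ := by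
    have := Int.floor_le (ρ / ε)
    rw [← hLd, le_div_iff₀ hε] at this
    linarith
  have hL1 : 100 ≤ L := by
    rw [hLd, Int.le_floor, le_div_iff₀ hε]
    push_cast
    linarith
  have hL1' : (100 : ℝ) ≤ L := by exact_mod_cast hL1
  set m0 : ℤ := round (p1 / ε) with hm0
  set a : ℝ := ε * m0 - p1 with ha
  have ha1 : |a| ≤ ε / 2 := by
    have h1 := abs_sub_round (p1 / ε)
    have h2 : a = -(ε * (p1 / ε - m0)) := by
      rw [ha]; field_simp; ring
    rw [h2, abs_neg, abs_mul, abs_of_pos hε]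
    have := mul_le_mul_of_nonneg_left h1 hε.le
    rw [← hm0] at this
    linarith
  have hAx : ∀ x : ℤ, |a + ε * x| ≤ ε / 2 + ε * |(x : ℝ)| := by
    intro x
    calc |a + ε * x| ≤ |a| + |ε * x| := abs_add_le _ _
      _ ≤ ε / 2 + ε * |(x : ℝ)| := by
        rw [abs_mul, abs_of_pos hε]; linarith
  have hxL : ∀ x : ℤ, |x| ≤ L → ε * |(x : ℝ)| ≤ ρ := by
    intro x hx
    have : |(x : ℝ)| ≤ L := by exact_mod_cast hx
    exact (mul_le_mul_of_nonneg_left this hε.le).trans hL0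
  have hcol : ∀ x : ℤ, ∃ n0 : ℤ, |x| ≤ L →
      (-(3 / 2 * |a + ε * x|) ≤ ε * n0 - p2 ∧ ε * n0 - p2 < 3 / 2 * |a + ε * x| + ε ∧
      P (a + ε * x) (ε * n0 - p2) ∧
        ∀ n : ℤ, |ε * n - p2| ≤ 40 * ρ → (P (a + ε * x) (ε * n - p2) ↔ n0 ≤ n)) := by
    intro x
    by_cases hx : |x| ≤ L
    · obtain ⟨n0, h⟩ := col H hε hερ p2 (a + ε * x) (by
        have := hAx x; have := hxL x hx; linarith)
      exact ⟨n0, fun _ => h⟩
    · exact ⟨0, fun h => absurd h hx⟩
  choose N hN using hcol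
  -- positions
  have hpos : ∀ x : ℤ, |x| ≤ L → |a + ε * x| + |ε * N x - p2| ≤ 3 * ε * (|(x : ℝ)| + 1) := by
    intro x hx
    obtain ⟨c1, c2, -, -⟩ := hN x hx
    have h1 := hAx x
    have h2 : |ε * N x - p2| ≤ 3 / 2 * |a + ε * x| + ε := by
      rw [abs_le]; constructor <;> linarith [abs_nonneg (a + ε * x)]
    have h3 : 0 ≤ ε * |(x : ℝ)| := by positivity
    nlinarith
  have hpos2 : ∀ x : ℤ, |x| ≤ L → |a + ε * x| + |ε * N x - p2| ≤ 4 * ρ := by
    intro x hx
    have h1 := hpos x hx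
    have h2 := hxL x hx
    nlinarith
  have key : ∀ x x' : ℤ, |x| ≤ L → |x'| ≤ L → |x' - x| = 1 → N x' ≤ N x + 3 := by
    intro x x' hx hx' hxx
    obtain ⟨c1, c2, c3, c4⟩ := hN x hx
    obtain ⟨d1, d2, d3, d4⟩ := hN x' hx'
    have h1 := hpos2 x hx
    have h0 := abs_nonneg (a + ε * x)
    have h2 := step H hε hερ (A := a + ε * x) (b := ε * N x - p2)
      (δ := ε * ((x' : ℝ) - x)) (by
        rw [abs_mul, abs_of_pos hε]
        have : |((x' : ℝ) - x)| = 1 := by exact_mod_cast hxx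
        rw [this, mul_one]) (by linarith) c3
    refine (d4 (N x + 3) ?_).1 ?_
    · have h3 : ε * ((N x + 3 : ℤ) : ℝ) - p2 = (ε * N x - p2) + 3 * ε := by push_cast; ring
      rw [h3]
      calc |(ε * N x - p2) + 3 * ε| ≤ |ε * N x - p2| + |3 * ε| := abs_add_le _ _
        _ ≤ 40 * ρ := by rw [abs_of_pos (show 0 < 3 * ε by linarith)]; linarith
    · convert h2 using 1
      · ring
      · push_cast; ring
  have hcl : ∀ x : ℤ, |x| ≤ L → max (-L) (min L x) = x := by
    intro x hx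
    rw [abs_le] at hx
    omega
  have h00 : |(0 : ℤ)| ≤ L := by rw [abs_zero]; omega
  have hb0 : |ε * N 0 - p2| ≤ 7 / 4 * ε := by
    obtain ⟨c1, c2, -, -⟩ := hN 0 h00
    rw [Int.cast_zero, mul_zero, add_zero] at c1 c2
    rw [abs_le]
    constructor <;> linarith
  refine ⟨m0, N 0, ?_, ha1, hb0, fun x => N (max (-L) (min L x)) - N 0, -t / e, ⟨?_, ?_⟩, ?_, ?_,
    ?_⟩
  · obtain ⟨-, -, c3, -⟩ := hN 0 h00
    rw [Int.cast_zero, mul_zero, add_zero] at c3
    exact c3
  · rw [hcl 0 h00, sub_self]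
  · intro x
    have k1 : |max (-L) (min L x)| ≤ L := by rw [abs_le]; omega
    have k2 : |max (-L) (min L (x + 1))| ≤ L := by rw [abs_le]; omega
    rcases (show max (-L) (min L (x + 1)) = max (-L) (min L x) ∨
      max (-L) (min L (x + 1)) - max (-L) (min L x) = 1 by omega) with h | h
    · rw [h, sub_self, abs_zero]; norm_num
    · have k3 := key _ _ k1 k2 (by rw [h]; rfl)
      have k4 := key _ _ k2 k1 (by rw [abs_sub_comm, h]; rfl)
      rw [abs_le]
      constructor <;> linarith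
  · rw [neg_div, abs_neg, abs_div, abs_of_pos (show 0 < e by linarith),
      div_le_iff₀ (by linarith)]
    linarith
  · intro x hx
    simp only
    rw [hcl x hx]
    obtain ⟨c1, c2, c3, c4⟩ := hN x hx
    have hM := hpos x hx
    have hM2 := hpos2 x hx
    set A := a + ε * x with hA
    set b := ε * N x - p2 with hb
    set X : ℝ := |(x : ℝ)| with hX
    have hX0 : 0 ≤ X := abs_nonneg _
    set Y : ℝ := (4 * ε * (X + 1)) ^ (1 + α) with hY
    have hal := H.al
    have y1 : -(C * Y) ≤ t * A + e * b := by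
      have h1 := H.inn A b (by linarith) c3
      have h2 : (|A| + |b|) ^ (1 + α) ≤ Y := by
        apply Real.rpow_le_rpow (by positivity) _ (by linarith)
        nlinarith
      nlinarith
    have y2 : t * A + e * (b - ε) ≤ C * Y := by
      by_contra hcon
      push Not at hcon
      have h3 : ε * ((N x - 1 : ℤ) : ℝ) - p2 = b - ε := by push_cast; rw [hb]; ring
      have h4 : |b - ε| ≤ |b| + ε := by
        calc |b - ε| ≤ |b| + |ε| := abs_sub _ _
          _ = |b| + ε := by rw [abs_of_pos hε]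
      have h5 : P A (b - ε) := by
        refine H.out A (b - ε) (by linarith) ?_
        have h2 : (|A| + |b - ε|) ^ (1 + α) ≤ Y := by
          apply Real.rpow_le_rpow (by positivity) _ (by linarith)
          nlinarith
        nlinarith
      have h6 := (c4 (N x - 1) (by rw [h3]; linarith [abs_nonneg A])).1 (by rw [h3]; exact h5)
      linarith
    have hW0 : 0 ≤ X * (X / L) ^ α := by positivity
    have y3 : Y ≤ 64 * ε * (1 + X * (X / L) ^ α) := by
      refine powb H.al H.al1 hε (by linarith) (by linarith) (by linarith) ?_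
      rcases eq_or_ne x 0 with h | h
      · left; rw [hX, h]; simp
      · right
        rw [hX]
        have : (1 : ℤ) ≤ |x| := Int.one_le_abs h
        exact_mod_cast this
    set W := X * (X / L) ^ α with hW
    have y4 : |t * a + e * (ε * N 0 - p2)| ≤ 9 / 4 * ε := by
      calc |t * a + e * (ε * N 0 - p2)| ≤ |t * a| + |e * (ε * N 0 - p2)| := abs_add_le _ _
        _ ≤ 1 * |a| + 1 * |ε * N 0 - p2| := by
          rw [abs_mul, abs_mul, abs_of_pos (show 0 < e by linarith)]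
          exact add_le_add (mul_le_mul_of_nonneg_right ht1 (abs_nonneg _))
            (mul_le_mul_of_nonneg_right he1 (abs_nonneg _))
        _ ≤ 9 / 4 * ε := by linarith
    have y5 : e * ε * (((N x - N 0 : ℤ) : ℝ) - -t / e * x)
        = (t * A + e * b) - (t * a + e * (ε * N 0 - p2)) := by
      have : e ≠ 0 := by linarith
      rw [hA, hb]
      push_cast
      field_simp
      ring
    have y6 : |t * A + e * b| ≤ C * Y + ε := by
      rw [abs_le]
      constructor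
      · linarith
      · nlinarith
    have y7 : e * ε * |((N x - N 0 : ℤ) : ℝ) - -t / e * x| ≤ C * Y + 13 / 4 * ε := by
      have h1 : e * ε * |((N x - N 0 : ℤ) : ℝ) - -t / e * x|
          = |e * ε * (((N x - N 0 : ℤ) : ℝ) - -t / e * x)| := by
        rw [abs_mul (e * ε), abs_of_pos (mul_pos (by linarith) hε)]
      rw [h1, y5]
      calc |(t * A + e * b) - (t * a + e * (ε * N 0 - p2))|
          ≤ |t * A + e * b| + |t * a + e * (ε * N 0 - p2)| := abs_sub _ _
        _ ≤ C * Y + 13 / 4 * ε := by linarith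
    have y8 : C * Y ≤ C * (64 * ε * (1 + W)) := mul_le_mul_of_nonneg_left y3 hC.le
    have y9 : e * |((N x - N 0 : ℤ) : ℝ) - -t / e * x| ≤ 64 * C * (1 + W) + 13 / 4 := by
      have h1 : ε * (e * |((N x - N 0 : ℤ) : ℝ) - -t / e * x|)
          ≤ ε * (64 * C * (1 + W) + 13 / 4) := by
        nlinarith
      exact le_of_mul_le_mul_left h1 hε
    have y10 : 7 / 10 * |((N x - N 0 : ℤ) : ℝ) - -t / e * x|
        ≤ e * |((N x - N 0 : ℤ) : ℝ) - -t / e * x| :=
      mul_le_mul_of_nonneg_right he (abs_nonneg _)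
    have y11 : 0 ≤ C * W := mul_nonneg hC.le hW0
    nlinarith
  · intro x y hx hy
    simp only
    rw [hcl x hx]
    obtain ⟨c1, c2, c3, c4⟩ := hN x hx
    have h1 : ε * ((m0 + x : ℤ) : ℝ) - p1 = a + ε * x := by push_cast; rw [ha]; ring
    rw [h1]
    have hyL : ε * |(y : ℝ)| ≤ 32 * ρ := by
      have : |(y : ℝ)| ≤ 32 * L := by exact_mod_cast hy
      have := mul_le_mul_of_nonneg_left this hε.le
      linarith
    rw [c4 (N 0 + y) (by
      have h3 : ε * ((N 0 + y : ℤ) : ℝ) - p2 = (ε * N 0 - p2) + ε * y := by push_cast; ring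
      rw [h3]
      calc |(ε * N 0 - p2) + ε * y| ≤ |ε * N 0 - p2| + |ε * y| := abs_add_le _ _
        _ ≤ 40 * ρ := by rw [abs_mul, abs_of_pos hε]; linarith)]
    constructor <;> intro h <;> linarith

end Pool.Agent.Y989.SD.GD
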